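import Pool.Agent.W889.SR.Stm

set_option autoImplicit false

namespace Pool.Agent.W347.SR

open Pool.Agent.W889.SR

theorem fin : FIN_stmt := by
  intro hFM M _ _ s n a
  obtain ⟨m, ⟨e'⟩⟩ := Finite.exists_equiv_fin M
  let e : Fin m ≃ M := e'.symm
  obtain ⟨φ0, hφ0⟩ := hFM.qf (n + m) (fun i j => s (Fin.append a e i) (Fin.append a e j))
    (fun i j => Fin.append a e i = Fin.append a e j)
  obtain ⟨φ, hφ, hr⟩ := hFM.ex 1 le_rfl n m (Fml.qf φ0) (by simp [Fml.Lv])
  refine ⟨φ, hφ, fun v => ?_⟩
  rw [hr]
  constructor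
  · rintro ⟨w, hw⟩
    have hw' := (hφ0 M s (Fin.append v w)).1 (by simpa [Fml.Realize] using hw)
    obtain ⟨h1, h2⟩ := hw'
    have hinj : Function.Injective (w ∘ e.symm) := by
      intro x y hxy
      have h3 := (h2 (Fin.natAdd n (e.symm x)) (Fin.natAdd n (e.symm y))).1
        (by simpa [Fin.append_right] using hxy)
      simpa [Fin.append_right] using h3
    have hbij : Function.Bijective (w ∘ e.symm) := Finite.injective_iff_bijective.1 hinj
    refine ⟨⟨Equiv.ofBijective _ hbij, ?_⟩, ?_⟩
    · intro x y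
      have h3 := h1 (Fin.natAdd n (e.symm x)) (Fin.natAdd n (e.symm y))
      simpa [Fin.append_right] using h3
    · intro i
      have h3 := (h2 (Fin.castAdd m i) (Fin.natAdd n (e.symm (a i)))).2
        (by simp [Fin.append_left, Fin.append_right])
      simp only [Fin.append_left, Fin.append_right] at h3
      exact h3.symm
  · rintro ⟨g, hg⟩
    refine ⟨g ∘ e, ?_⟩
    have hap : Fin.append v (g ∘ e) = g ∘ Fin.append a e := by
      funext i
      refine Fin.addCases (fun i => ?_) (fun i => ?_) i
      · simp [Fin.append_left, hg]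
      · simp [Fin.append_right]
    have h3 : φ0.Realize s (Fin.append v (g ∘ e)) := by
      rw [hφ0, hap]
      exact ⟨fun i j => g.map_rel_iff, fun i j => g.injective.eq_iff⟩
    simpa [Fml.Realize] using h3

end Pool.Agent.W347.SR
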